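import Pool.Agent.P.MP_5f6af4_co.Sp.Core
import Pool.Agent.P.MP_5f6af4_co.Main

/-! Application to the auxiliary equation of the multiplier theorems. -/

set_option autoImplicit false
set_option linter.unusedSectionVars false

namespace Pool.Agent.P.MP_5f6af4_co.Sp

open Finset ComplexConjugate

/-- a half plane -/
def Half (z : ℂ) : Prop := 0 < z.re ∨ (z.re = 0 ∧ 0 < z.im)

lemma half_neg {z : ℂ} (hz : z ≠ 0) : ¬ (Half z ↔ Half (-z)) := by
  have : z.re ≠ 0 ∨ z.im ≠ 0 := by
    by_contra h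
    push Not at h
    exact hz (Complex.ext h.1 h.2)
  unfold Half
  simp only [Complex.neg_re, Complex.neg_im, Left.neg_pos_iff, neg_eq_zero]
  rcases lt_trichotomy z.re 0 with h | h | h
  · simp [h, h.ne, h.not_gt]
  · rcases lt_trichotomy z.im 0 with h' | h' | h'
    · simp [h, h', h'.not_gt]
    · simp [h, h'] at this
    · simp [h, h', h'.not_gt]
  · simp [h, h.ne', h.not_gt]

/-- Sparse sequences with vanishing autocorrelation. -/
theorem sparse : ∃ C : ℕ, ∀ (G : Type) [AddCommGroup G] [Fintype G] [DecidableEq G] (f : G → ℂ)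
    (m : ℕ), (∀ d, d ≠ 0 → ∑ h, f h * conj (f (h - d)) = 0) →
    (univ.filter fun g => f g ≠ 0).card ≤ m ^ 2 → NoTor G ((m : ℝ) ^ (C * m)) →
    ∀ g g', f g ≠ 0 → f g' ≠ 0 → g = g' := by
  classical
  obtain ⟨C, hC⟩ := core
  refine ⟨C, fun G _ _ _ f m hf hm hG g g' hg hg' => ?_⟩
  have := hC G {g // f g ≠ 0} (fun s => s.1) (fun s t => decide (Half (f s / conj (f t)))) m
    Subtype.val_injective ?_ (by rwa [Fintype.card_subtype]) hG
  · exact congrArg Subtype.val (Fintype.card_le_one_iff.mp this ⟨g, hg⟩ ⟨g', hg'⟩)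
  intro s s' u u' hne hd hcol
  by_contra hcon
  push Not at hcon
  have h1 := hf (s.1 - s'.1) (sub_ne_zero.mpr fun h => hne (Subtype.ext h))
  rw [← Finset.sum_subset (subset_univ {s.1, u.1})] at h1
  · have hs := s.2
    have hs' := (map_ne_zero conj).mpr s'.2
    have hu := u.2
    have hu' := (map_ne_zero conj).mpr u'.2
    by_cases hsu : s.1 = u.1
    · rw [← hsu, pair_eq_singleton, sum_singleton, sub_sub_cancel] at h1
      exact mul_ne_zero hs hs' h1
    · rw [sum_pair hsu, sub_sub_cancel] at h1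
      beta_reduce at hd
      rw [hd, sub_sub_cancel] at h1
      have h2 : f s / conj (f u') = -(f u / conj (f s')) := by
        field_simp
        linear_combination h1
      rw [decide_eq_decide, h2] at hcol
      exact half_neg (div_ne_zero hu hs') hcol.symm
  · intro t _ ht
    by_contra h
    rw [mul_eq_zero, not_or, map_eq_zero] at h
    simp only [mem_insert, mem_singleton, not_or] at ht
    have := hcon ⟨t, h.1⟩ ⟨_, h.2⟩ (by simp) fun h' => ht.1 (congrArg Subtype.val h')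
    exact ht.2 (congrArg Subtype.val this)

section
variable {G H : Type} [AddCommGroup G] [Fintype G] [DecidableEq G] [AddCommGroup H] [Fintype H]
  [DecidableEq H]

/-- twisted push forward -/
noncomputable def tw (π : G →+ H) (E : GR G) (ψ : AddChar G ℂ) (k : H) : ℂ :=
  ∑ g, if π g = k then (E.coeff g : ℂ) * ψ g else 0

lemma tw_mul (π : G →+ H) (E : GR G) (ψ : AddChar G ℂ) (k k' : H) :
    tw π E ψ k * conj (tw π E ψ k') = ∑ g, ∑ x,
      if π g = k ∧ π (g - x) = k' then (E.coeff g * E.coeff (g - x) : ℂ) * ψ x else 0 := by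
  unfold tw
  rw [map_sum, Finset.sum_mul_sum]
  refine Finset.sum_congr rfl fun g _ => ?_
  rw [← Equiv.sum_comp (Equiv.subLeft g)]
  refine Finset.sum_congr rfl fun x _ => ?_
  rw [Equiv.subLeft_apply]
  by_cases h1 : π g = k <;> by_cases h2 : π (g - x) = k' <;> simp only [h1, h2, if_true, if_false,
    and_self, and_true, and_false, map_zero, mul_zero, zero_mul, map_mul, map_intCast]
  rw [← AddChar.map_neg_eq_conj]
  have : ψ x = ψ g * ψ (-(g - x)) := by
    rw [← AddChar.map_add_eq_mul]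
    congr 1
    abel
  rw [this]
  ring

lemma tw_corr (π : G →+ H) {E : GR G} {M : ℤ} (hE : E * cj E = (M : GR G)) (ψ : AddChar G ℂ)
    (d : H) : ∑ k, tw π E ψ k * conj (tw π E ψ (k - d)) = if d = 0 then (M : ℂ) else 0 := by
  simp only [tw_mul]
  rw [Finset.sum_comm]
  have h1 : ∀ g, ∑ k, ∑ x, (if π g = k ∧ π (g - x) = k - d then
      (E.coeff g * E.coeff (g - x) : ℂ) * ψ x else 0) =
      ∑ x, if π x = d then (E.coeff g * E.coeff (g - x) : ℂ) * ψ x else 0 := by
    intro g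
    rw [Finset.sum_eq_single (π g) (fun k _ hk => by simp [hk.symm]) (by simp)]
    refine Finset.sum_congr rfl fun x _ => ?_
    simp [map_sub]
  simp only [h1]
  rw [Finset.sum_comm]
  have h2 : ∀ x, ∑ g, (if π x = d then (E.coeff g * E.coeff (g - x) : ℂ) * ψ x else 0) =
      if 0 = x then (if d = 0 then (M : ℂ) else 0) else 0 := by
    intro x
    have h3 := coeff_mul_cj E E x
    rw [hE, coeff_intCast] at h3
    have h4 := congrArg (fun z : ℤ => (z : ℂ)) h3
    push_cast at h4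
    rw [Finset.sum_ite_irrel, ← Finset.sum_mul, ← h4]
    by_cases hx : 0 = x
    · subst hx
      simp [eq_comm]
    · simp [hx]
  simp [h2]

lemma tw_parseval (π : G →+ H) (E : GR G) (k : H) :
    ∑ ψ : AddChar G ℂ, tw π E ψ k * conj (tw π E ψ k) =
      ((Fintype.card G * ∑ g, if π g = k then E.coeff g ^ 2 else 0 : ℤ) : ℂ) := by
  simp only [tw_mul]
  rw [Finset.sum_comm]
  push_cast
  rw [Finset.mul_sum]
  refine Finset.sum_congr rfl fun g _ => ?_
  rw [Finset.sum_comm, Finset.sum_eq_single 0 (fun x _ hx => ?_) (by simp)]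
  · by_cases h : π g = k <;> simp [h, sq]
  · rw [Finset.sum_ite_irrel, ← Finset.mul_sum, AddChar.sum_apply_eq_ite]
    simp [hx]

lemma one_fibre (π : G →+ H) {E : GR G} {m : ℕ} (hm : 0 < m)
    (hE : E * cj E = (((m : ℤ) ^ 2 : ℤ) : GR G)) (hc : Nat.Coprime m (Fintype.card G))
    (h : ∀ (ψ : AddChar G ℂ) k k', tw π E ψ k ≠ 0 → tw π E ψ k' ≠ 0 → k = k') :
    ∃ g0, ∀ g, E.coeff g ≠ 0 → π g = π g0 := by
  classical
  set N : H → ℤ := fun k => ∑ g, if π g = k then E.coeff g ^ 2 else 0 with hN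
  have hN0 : ∀ k, 0 ≤ N k := fun k => Finset.sum_nonneg fun g _ => by
    split_ifs <;> positivity
  have hsum : ∑ k, N k = (m : ℤ) ^ 2 := by
    rw [hN, Finset.sum_comm, ← sum_sq hE]
    simp
  have hle : ∀ g, E.coeff g ^ 2 ≤ N (π g) := fun g => by
    have := Finset.single_le_sum (f := fun g' => if π g' = π g then E.coeff g' ^ 2 else 0)
      (fun g' _ => by split_ifs <;> positivity) (mem_univ g)
    simpa using this
  have hdvd : ∀ k, (m : ℤ) ^ 2 ∣ N k := by
    intro k
    have h1 := tw_parseval π E k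
    have h2 : ∀ ψ : AddChar G ℂ, tw π E ψ k * conj (tw π E ψ k) =
        (((m : ℤ) ^ 2 * (if tw π E ψ k = 0 then 0 else 1) : ℤ) : ℂ) := by
      intro ψ
      by_cases h0 : tw π E ψ k = 0
      · simp [h0]
      · have h3 := tw_corr π hE ψ 0
        rw [Finset.sum_eq_single k (fun k' _ hk' => by
          have : tw π E ψ k' = 0 := by
            by_contra h'
            exact hk' (h ψ _ _ h' h0)
          simp [this]) (by simp)] at h3
        simpa [h0] using h3
    simp only [h2] at h1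
    rw [← Int.cast_sum, Int.cast_inj, ← Finset.mul_sum] at h1
    refine IsCoprime.dvd_of_dvd_mul_left ?_ ⟨_, h1.symm⟩
    exact (Nat.isCoprime_iff_coprime.mpr hc).pow_left
  by_cases h0 : ∀ g, E.coeff g = 0
  · exact ⟨0, fun g hg => (hg (h0 g)).elim⟩
  push Not at h0
  obtain ⟨g0, hg0⟩ := h0
  refine ⟨g0, fun g hg => ?_⟩
  by_contra hne
  have h1 : ∀ x, E.coeff x ≠ 0 → (m : ℤ) ^ 2 ≤ N (π x) := fun x hx =>
    Int.le_of_dvd (lt_of_lt_of_le (by positivity) (hle x)) (hdvd _)
  have h2 := Finset.add_le_sum (f := N) (fun k _ => hN0 k) (mem_univ (π g)) (mem_univ (π g0)) hne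
  have h3 : (0 : ℤ) < (m : ℤ) ^ 2 := by positivity
  linarith [h1 g hg, h1 g0 hg0]

lemma tw_card (π : G →+ H) {E : GR G} {m : ℕ} (hE : E * cj E = (((m : ℤ) ^ 2 : ℤ) : GR G))
    (ψ : AddChar G ℂ) : (univ.filter fun k => tw π E ψ k ≠ 0).card ≤ m ^ 2 := by
  have h1 : (univ.filter fun k => tw π E ψ k ≠ 0) ⊆
      (univ.filter fun g => E.coeff g ≠ 0).image π := by
    intro k hk
    obtain ⟨g, -, hg⟩ := Finset.exists_ne_zero_of_sum_ne_zero (mem_filter.mp hk).2
    by_cases h : π g = k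
    · refine mem_image.mpr ⟨g, mem_filter.mpr ⟨mem_univ _, fun h' => ?_⟩, h⟩
      simp [h'] at hg
    · simp [h] at hg
  refine ((card_le_card h1).trans card_image_le).trans ?_
  have h2 : (((univ.filter fun g => E.coeff g ≠ 0).card : ℕ) : ℤ) ≤ (m : ℤ) ^ 2 := by
    rw [← sum_sq hE, card_filter]
    push_cast
    refine Finset.sum_le_sum fun g _ => ?_
    split_ifs with h
    · have : 0 < E.coeff g ^ 2 := by positivity
      omega
    · positivity
  exact_mod_cast h2

end

lemma dvd_of_pow {v : ℕ} [NeZero v] {E : GR (ZMod v)} {m o : ℕ} (hm : 0 < m) (ho : 0 < o)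
    (hc : Nat.Coprime m v) {g : ZMod v} (h : E ^ o = el g * (m : GR (ZMod v)) ^ o) (x : ZMod v) :
    (m : ℤ) ∣ E.coeff x := by
  have hm' : (m : ℂ) ≠ 0 := by exact_mod_cast hm.ne'
  have hv : 0 < v := Nat.pos_of_ne_zero (NeZero.ne v)
  have hint : ∀ (ψ : AddChar (ZMod v) ℂ) (y : ZMod v), ψ y ^ v = 1 := by
    intro ψ y
    rw [← AddChar.map_nsmul_eq_pow, nsmul_eq_mul, ZMod.natCast_self, zero_mul, AddChar.map_zero_eq_one]
  have h1 := inversion (ZMod.isPrimitive_stdAddChar v) E x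
  have h2 : IsIntegral ℤ ((((v * E.coeff x : ℤ) : ℚ) / m : ℚ) : ℂ) := by
    rw [Rat.cast_div, Rat.cast_intCast, Rat.cast_natCast, ← h1, Finset.sum_div]
    refine IsIntegral.sum _ fun j _ => ?_
    rw [mul_div_right_comm]
    refine IsIntegral.mul (IsIntegral.of_pow (Nat.mul_pos ho hv) ?_) (IsIntegral.of_pow hv ?_)
    · have h3 := congrArg (ev (ZMod.stdAddChar.mulShift j)) h
      rw [map_pow, map_mul, map_pow, map_natCast, el, ev_single] at h3
      rw [pow_mul, div_pow, h3, mul_div_assoc, div_self (pow_ne_zero _ hm'), Int.cast_one, one_mul,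
        mul_one, hint]
      exact isIntegral_one
    · rw [hint]
      exact isIntegral_one
  have h3 := (isIntegral_algebraMap_iff (R := ℤ) (algebraMap ℚ ℂ).injective).mp h2
  obtain ⟨y, hy⟩ := IsIntegrallyClosed.isIntegral_iff.mp h3
  have hmq : (m : ℚ) ≠ 0 := by exact_mod_cast hm.ne'
  rw [eq_div_iff hmq, eq_intCast] at hy
  have h4 : y * m = v * E.coeff x := by exact_mod_cast hy
  exact IsCoprime.dvd_of_dvd_mul_left (Nat.isCoprime_iff_coprime.mpr hc) ⟨y, by rw [← h4]; ring⟩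

theorem mult : ∃ C : ℕ, ∀ (v v1 v2 k lam n1 m t : ℕ) [NeZero v] (D : Finset (ZMod v)),
    D.card = k →
    (∀ d : ZMod v, d ≠ 0 → ((D ×ˢ D).filter (fun x => x.1 - x.2 = d)).card = lam) →
    k = lam + n1 * m → 2 ≤ n1 * m → v = v1 * v2 → Nat.Coprime n1 v → Nat.Coprime m v1 →
    (∀ r : ℕ, r.Prime → r ∣ v2 → m ^ (C * m) < r) → Nat.Coprime t v → t ≡ 1 [MOD v1] →
    (∀ u : ℕ, u.Prime → u ∣ n1 → ∃ (j : ℕ) (g : ZMod v),
      D.image (fun x => (t : ZMod v) * x) = D.image (fun x => (u : ZMod v) ^ j * x + g)) →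
    ∃ g : ZMod v, D.image (fun x => (t : ZMod v) * x) = D.image (fun x => x + g) := by
  obtain ⟨C, hC⟩ := sparse
  refine ⟨C + 1, fun v v1 v2 k lam n1 m t _ D hk hD hn h2 hv hn1v hm1 hr htv ht1 ht => ?_⟩
  have hn1 : n1 ≠ 0 := by rintro rfl; simp at h2
  have hm : 0 < m := Nat.pos_of_ne_zero (by rintro rfl; simp at h2)
  have hn1' : (n1 : ℤ) ≠ 0 := by exact_mod_cast hn1
  have hm' : (m : ℤ) ≠ 0 := by exact_mod_cast hm.ne'
  have hv2 : v2 ∣ v := Dvd.intro_left v1 hv.symm
  have : NeZero v2 := ⟨fun h => NeZero.ne v (by rw [hv, h, mul_zero])⟩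
  have hcop : ∀ N : ℕ, 0 < N → N ≤ m ^ ((C + 1) * m) → Nat.Coprime N v2 := by
    intro N hN hN'
    refine Nat.coprime_of_dvd fun r hr' h1 h3 => ?_
    have := hr r hr' h3
    have := Nat.le_of_dvd hN h1
    omega
  have hmv : Nat.Coprime m v := by
    rw [hv]
    exact Nat.Coprime.mul_right hm1 (hcop m hm (Nat.le_self_pow (by positivity) m))
  have htor : NoTor (ZMod v2) ((m : ℝ) ^ (C * m)) := by
    intro N hN hN' x hx
    have h1 : N ≤ m ^ (C * m) := by exact_mod_cast hN'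
    have h3 := (ZMod.isUnit_iff_coprime N v2).mpr (hcop N hN (h1.trans
      (Nat.pow_le_pow_right hm (Nat.mul_le_mul_right m (Nat.le_succ C)))))
    rw [nsmul_eq_mul] at hx
    exact h3.mul_right_eq_zero.mp hx
  have htu : IsUnit (t : ZMod v) := (ZMod.isUnit_iff_coprime t v).mpr htv
  set X := ind D with hX
  have hDS : DS X ((n1 : ℤ) * m) lam := by
    have := DS_of D (n1 * m) lam (hk.trans hn) hD
    simpa using this
  obtain ⟨E, hE⟩ : ∃ E : GR (ZMod v), mu (t : ZMod v) X * cj X - ((lam : ℤ) : GR (ZMod v)) * allG _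
      = ((n1 : ℤ) : GR (ZMod v)) * E := by
    apply exists_of_dvd
    intro g
    apply dvd_of_primes
    intro u hu hun a ha
    have huc := Nat.Coprime.coprime_dvd_left hun hn1v
    obtain ⟨j, g', hj⟩ := ht u hu hun
    apply cong_of_tr (tr_of_image htu (((ZMod.isUnit_iff_coprime u v).mpr huc).pow _) hj)
    intro g''
    apply basic_cong u hu ((Nat.Prime.coprime_iff_not_dvd hu).mp huc) X _ _ hDS.eq
    exact Dvd.dvd.mul_right (by exact_mod_cast ha) _
  obtain ⟨hE1, hE2⟩ := E_props hn1' (hDS.map htu) hDS hE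
  let π : ZMod v →+ ZMod v2 := (ZMod.castHom hv2 (ZMod v2)).toAddMonoidHom
  obtain ⟨g0, hg0⟩ := one_fibre π hm hE1 (by rwa [ZMod.card]) fun ψ =>
    hC (ZMod v2) (tw π E ψ) m (fun d hd => by rw [tw_corr π hE1, if_neg hd]) (tw_card π hE1 ψ) htor
  have hfix : ∀ g, π g = π g0 → (t : ZMod v) * g = (t * g0 - g0) + g := by
    intro g hg
    have h1 : π (g - g0) = 0 := by rw [map_sub, hg, sub_self]
    obtain ⟨y, hy⟩ := ZMod.natCast_zmod_surjective (g - g0)
    rw [← hy] at h1
    have h3 : (y : ZMod v2) = 0 := by simpa [π] using h1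
    obtain ⟨y', rfl⟩ := (ZMod.natCast_eq_zero_iff y v2).mp h3
    obtain ⟨z, hz⟩ := ht1.symm.dvd
    have h4 := congrArg (fun a : ℤ => (a : ZMod v)) hz
    have h5 : (v1 : ZMod v) * v2 = 0 := by rw [← Nat.cast_mul, ← hv, ZMod.natCast_self]
    push_cast at h4 hy
    linear_combination (g - g0) * h4 - (v1 : ZMod v) * z * hy + (z : ZMod v) * y' * h5
  have hTr : Tr (mu (t : ZMod v) E) (mu 1 E) := by
    refine ⟨t * g0 - g0, ?_⟩
    rw [mu_one]
    conv_lhs => rw [eq_sum E]
    conv_rhs => rw [eq_sum E]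
    rw [map_sum, Finset.mul_sum]
    refine Finset.sum_congr rfl fun g _ => ?_
    by_cases hg : E.coeff g = 0
    · simp [hg]
    · rw [mu, push_single, el, AddMonoidAlgebra.single_mul_single, one_mul, ← hfix g (hg0 g hg)]
      rfl
  have hpow : ∀ j : ℕ, Tr ((((n1 : ℤ) : GR (ZMod v)) * E) ^ j * (((n1 : ℤ) * m : ℤ) : GR (ZMod v)))
      ((((n1 : ℤ) * m : ℤ) : GR (ZMod v)) ^ j *
        (mu ((t : ZMod v) ^ j) X * cj X - ((lam : ℤ) : GR (ZMod v)) * allG _)) := by
    intro j
    induction j with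
    | zero =>
      rw [pow_zero, pow_zero, pow_zero, mu_one, hDS.eq]
      simpa using Tr.refl _
    | succ j ih =>
      obtain ⟨g1, h1⟩ := ih
      obtain ⟨g2, h3⟩ := (hTr.pow j).symm
      rw [one_pow, mu_one] at h3
      have h4 := F_mul (hDS.map (htu.pow (j + 1))) (hDS.map (htu.pow j)) hDS
      have h5 := congrArg (mu ((t : ZMod v) ^ j)) hE
      simp only [map_sub, map_mul, map_intCast, mu_cj, mu_allG (htu.pow j), mu_mu, ← pow_succ] at h5
      rw [h5] at h4
      refine ⟨g1 + g2, ?_⟩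
      rw [el_add, pow_succ, pow_succ, mul_right_comm, h1]
      conv_lhs => rw [h3]
      linear_combination (el g1 * el g2 * (((n1 : ℤ) * m : ℤ) : GR (ZMod v)) ^ j) * h4
  have hord : 0 < orderOf (t : ZMod v) := by
    obtain ⟨u, hu⟩ := htu
    rw [← hu, orderOf_units]
    exact orderOf_pos u
  obtain ⟨g1, hg1⟩ := hpow (orderOf (t : ZMod v))
  rw [pow_orderOf_eq_one, mu_one, hDS.eq] at hg1
  have hEo : E ^ orderOf (t : ZMod v) = el g1 * (m : GR (ZMod v)) ^ orderOf (t : ZMod v) := by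
    apply intCast_mul_cancel (c := (n1 : ℤ) ^ orderOf (t : ZMod v) * (n1 * m))
      (mul_ne_zero (pow_ne_zero _ hn1') (mul_ne_zero hn1' hm'))
    push_cast at hg1 ⊢
    rw [mul_pow, mul_pow] at hg1
    linear_combination hg1
  obtain ⟨W, hW⟩ := exists_of_dvd _ _ (dvd_of_pow hm hord hmv hEo)
  obtain ⟨g, rfl⟩ : ∃ g, W = el g := by
    apply trivial_unit
    · apply intCast_mul_cancel (c := (m : ℤ) ^ 2) (pow_ne_zero 2 hm')
      rw [hW, map_mul, map_intCast] at hE1
      push_cast at hE1 ⊢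
      linear_combination hE1
    · rw [hW, map_mul, map_intCast, Int.cast_id] at hE2
      exact mul_left_cancel₀ hm' (by rw [hE2, mul_one])
  refine image_of_tr htu ⟨g, ?_⟩
  apply intCast_mul_cancel (c := (n1 : ℤ) * m) (mul_ne_zero hn1' hm')
  have h1 := hDS.eq
  have h3 := mul_allG X
  have h4 := mul_allG (mu (t : ZMod v) X)
  rw [aug_mu] at h4
  rw [hW] at hE
  push_cast at hE h1 ⊢
  linear_combination X * hE - mu (t : ZMod v) X * h1 + (lam : GR (ZMod v)) * h3
    - (lam : GR (ZMod v)) * h4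

end Pool.Agent.P.MP_5f6af4_co.Sp
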