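import Mathlib

/-! Greedy selection lemmas. -/

set_option autoImplicit false
set_option linter.unusedSectionVars false

namespace Pool.Agent.P.MP_5f6af4_co.Sp

open Finset

variable {α β : Type} [DecidableEq α] [DecidableEq β]

lemma greedy (J : Finset α) (F : Finset α → ℝ) (γ B : ℝ) (hγ : 0 ≤ γ) (h0 : 0 ≤ F ∅)
    (hB : ∀ Z, F Z ≤ B) :
    ∃ Z ⊆ J, γ * Z.card ≤ B ∧ ∀ z ∈ J, F (insert z Z) ≤ F Z + γ := by
  obtain ⟨Z, hZ, hmax⟩ := Finset.exists_max_image J.powerset (fun Z => F Z - γ * Z.card)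
    ⟨∅, by simp⟩
  rw [mem_powerset] at hZ
  refine ⟨Z, hZ, ?_, fun z hz => ?_⟩
  · have := hmax ∅ (by simp)
    simp only [card_empty, Nat.cast_zero, mul_zero, sub_zero] at this
    linarith [hB Z]
  · have := hmax (insert z Z) (mem_powerset.mpr (insert_subset hz hZ))
    have h1 : ((insert z Z).card : ℝ) ≤ Z.card + 1 := by exact_mod_cast card_insert_le z Z
    nlinarith

lemma indep (f : α → α) (n : ℕ) : ∀ A : Finset α, A.card ≤ n → (∀ a ∈ A, f a ≠ a) →
    ∃ W ⊆ A, A.card ≤ 3 * W.card ∧ ∀ a ∈ W, f a ∉ W := by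
  induction n with
  | zero =>
    intro A hA _
    exact ⟨∅, empty_subset _, by omega, by simp⟩
  | succ n ih =>
    intro A hA hf
    rcases A.eq_empty_or_nonempty with rfl | hne
    · exact ⟨∅, empty_subset _, by simp, by simp⟩
    obtain ⟨j, hj, hjc⟩ := Finset.exists_card_fiber_le_of_card_le_mul (s := A) (t := A) (f := f)
      (n := 1) hne (by omega)
    set X := insert j (insert (f j) (A.filter fun x => f x = j)) with hX
    have hXc : X.card ≤ 3 := by
      have h1 := card_insert_le j (insert (f j) (A.filter fun x => f x = j))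
      have h2 := card_insert_le (f j) (A.filter fun x => f x = j)
      exact h1.trans (by omega)
    have hlt : (A \ X).card < A.card := by
      refine card_lt_card ⟨sdiff_subset, fun h => ?_⟩
      have := h hj
      simp [hX] at this
    obtain ⟨W, hW, hWc, hWf⟩ := ih (A \ X) (by omega) fun a ha => hf a (mem_sdiff.mp ha).1
    have hjW : j ∉ W := fun h => by
      have := hW h
      simp [hX] at this
    refine ⟨insert j W, insert_subset hj (hW.trans sdiff_subset), ?_, ?_⟩
    · rw [card_insert_of_notMem hjW]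
      have := le_card_sdiff X A
      omega
    · intro a ha
      rw [mem_insert] at ha
      rw [mem_insert, not_or]
      rcases ha with rfl | ha
      · refine ⟨hf a hj, fun h => ?_⟩
        have := hW h
        simp [hX] at this
      · refine ⟨fun h => ?_, hWf a ha⟩
        have := hW ha
        simp only [hX, mem_sdiff, mem_insert, mem_filter, not_or, not_and] at this
        exact this.2.2.2 this.1 h

/-- second labels seen from a set of first labels -/
def nb (V : Finset α) (x y : α → α → β) (b : α) (Z : Finset β) : Finset β :=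
  ((V.erase b).filter fun c => x b c ∈ Z).image (y b)

lemma nb_mono (V : Finset α) (x y : α → α → β) (b : α) (z : β) (Z : Finset β) :
    nb V x y b Z ⊆ nb V x y b (insert z Z) :=
  image_subset_image (monotone_filter_right _ fun _ _ h => mem_insert_of_mem h)

lemma phase_one (V : Finset α) (J : Finset β) (x y : α → α → β) (l : ℝ) (hl : 0 < l)
    (hV : 2 * (l ^ 2 + 1) ≤ V.card)
    (hJ : ∀ b ∈ V, ∀ c ∈ V.erase b, x b c ∈ J ∧ y b c ∈ J)
    (hdeg : ∀ b ∈ V, ∀ z ∈ J, (((V.erase b).filter fun c => x b c = z ∨ y b c = z).card : ℝ) ≤ l)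
    (hinj : ∀ b ∈ V, ∀ c ∈ V.erase b, ∀ c' ∈ V.erase b, x b c = x b c' → y b c = y b c' → c = c')
    (hJ0 : 0 < J.card) :
    ∃ Z ⊆ J, (Z.card : ℝ) ≤ 8 * J.card * l / V.card ∧
      (V.card : ℝ) ≤ 2 * (V.filter fun b => l ≤ (nb V x y b Z).card).card := by
  have hj : (0 : ℝ) < J.card := by exact_mod_cast hJ0
  have hu : (0 : ℝ) < V.card := by nlinarith
  obtain ⟨Z, hZ, hZc, hgain⟩ := greedy J
    (fun Z => ∑ b ∈ V, min ((nb V x y b Z).card : ℝ) (2 * l)) ((V.card : ℝ) ^ 2 / (4 * J.card))
    (V.card * (2 * l)) (by positivity) (Finset.sum_nonneg fun b _ => by positivity)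
    (fun Z => by
      refine (Finset.sum_le_sum fun b _ => min_le_right _ _).trans ?_
      simp)
  refine ⟨Z, hZ, ?_, ?_⟩
  · rw [le_div_iff₀ hu]
    rw [div_mul_eq_mul_div, div_le_iff₀ (by positivity)] at hZc
    nlinarith
  set T := V.filter fun b => ¬ l ≤ (nb V x y b Z).card with hT
  have hsplit : ((V.filter fun b => l ≤ (nb V x y b Z).card).card : ℝ) + T.card = V.card := by
    exact_mod_cast card_filter_add_card_filter_not (s := V) _
  have key : ∀ b ∈ T, (V.card : ℝ) / 2 ≤ ∑ z ∈ J,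
      (min ((nb V x y b (insert z Z)).card : ℝ) (2 * l) - min ((nb V x y b Z).card : ℝ) (2 * l)) := by
    intro b hb
    rw [hT, mem_filter, not_le] at hb
    obtain ⟨hbV, hb⟩ := hb
    set N := nb V x y b Z with hN
    have h1 : ∀ z ∈ J, ((((V.erase b).filter fun c => y b c ∉ N).filter fun c => x b c = z).card : ℝ)
        ≤ min ((nb V x y b (insert z Z)).card : ℝ) (2 * l) - min (N.card : ℝ) (2 * l) := by
      intro z hz
      set P := ((V.erase b).filter fun c => y b c ∉ N).filter fun c => x b c = z with hP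
      have hPl : (P.card : ℝ) ≤ l := by
        refine le_trans ?_ (hdeg b hbV z hz)
        refine Nat.cast_le.mpr (card_le_card fun c hc => ?_)
        simp only [hP, mem_filter] at hc ⊢
        exact ⟨hc.1.1, Or.inl hc.2⟩
      have h2 : (P.image (y b)).card = P.card := by
        refine card_image_of_injOn fun c hc c' hc' h => ?_
        simp only [hP, coe_filter, mem_filter, Set.mem_ofPred_eq] at hc hc'
        exact hinj b hbV c hc.1.1 c' hc'.1.1 (hc.2.trans hc'.2.symm) h
      have h3 : N ∪ P.image (y b) ⊆ nb V x y b (insert z Z) := by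
        refine union_subset (nb_mono V x y b z Z) (image_subset_image fun c hc => ?_)
        simp only [hP, mem_filter] at hc ⊢
        exact ⟨hc.1.1, by simp [hc.2]⟩
      have h4 : Disjoint N (P.image (y b)) := by
        rw [disjoint_right]
        intro w hw
        obtain ⟨c, hc, rfl⟩ := mem_image.mp hw
        simp only [hP, mem_filter] at hc
        exact hc.1.2
      have h5 := card_le_card h3
      rw [card_union_of_disjoint h4, h2] at h5
      have h6 : (N.card : ℝ) + P.card ≤ (nb V x y b (insert z Z)).card := by exact_mod_cast h5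
      rw [min_eq_left (by linarith : (N.card : ℝ) ≤ 2 * l), le_sub_iff_add_le, le_min_iff]
      constructor <;> linarith
    refine le_trans ?_ (Finset.sum_le_sum h1)
    rw [← Nat.cast_sum, ← card_eq_sum_card_fiberwise (fun c hc => by
      simp only [coe_filter, Set.mem_ofPred_eq] at hc
      exact (hJ b hbV c hc.1).1)]
    have h2 : (((V.erase b).filter fun c => y b c ∈ N).card : ℝ) ≤ l ^ 2 := by
      rw [card_eq_sum_card_fiberwise (t := N) (f := y b) (fun c hc => by
        simp only [coe_filter, Set.mem_ofPred_eq] at hc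
        exact hc.2), Nat.cast_sum]
      have h3 : ∀ w ∈ N, ((((V.erase b).filter fun c => y b c ∈ N).filter
          fun c => y b c = w).card : ℝ) ≤ l := by
        intro w hw
        have hwJ : w ∈ J := by
          obtain ⟨c, hc, rfl⟩ := mem_image.mp hw
          exact (hJ b hbV c (mem_filter.mp hc).1).2
        refine le_trans ?_ (hdeg b hbV w hwJ)
        refine Nat.cast_le.mpr (card_le_card fun c hc => ?_)
        simp only [mem_filter] at hc ⊢
        exact ⟨hc.1.1, Or.inr hc.2⟩
      refine (Finset.sum_le_sum h3).trans ?_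
      rw [sum_const, nsmul_eq_mul]
      nlinarith
    have h3 : (((V.erase b).filter fun c => y b c ∈ N).card : ℝ) +
        ((V.erase b).filter fun c => y b c ∉ N).card + 1 = V.card := by
      have h4 := card_filter_add_card_filter_not (s := V.erase b) (fun c => y b c ∈ N)
      have h5 := card_erase_add_one hbV
      exact_mod_cast (by omega)
    linarith
  have h1 : (T.card : ℝ) * (V.card / 2) ≤ ∑ b ∈ V, ∑ z ∈ J,
      (min ((nb V x y b (insert z Z)).card : ℝ) (2 * l) - min ((nb V x y b Z).card : ℝ) (2 * l)) := by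
    rw [← nsmul_eq_mul, ← sum_const]
    refine (Finset.sum_le_sum key).trans (Finset.sum_le_sum_of_subset_of_nonneg
      (filter_subset _ _) fun b _ _ => Finset.sum_nonneg fun z _ => ?_)
    rw [sub_nonneg]
    exact min_le_min_right _ (Nat.cast_le.mpr (card_le_card (nb_mono V x y b z Z)))
  rw [Finset.sum_comm] at h1
  have h2 : ∑ z ∈ J, ∑ b ∈ V,
      (min ((nb V x y b (insert z Z)).card : ℝ) (2 * l) - min ((nb V x y b Z).card : ℝ) (2 * l))
      ≤ ∑ _z ∈ J, (V.card : ℝ) ^ 2 / (4 * J.card) := by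
    refine Finset.sum_le_sum fun z hz => ?_
    rw [Finset.sum_sub_distrib]
    linarith [hgain z hz]
  rw [sum_const, nsmul_eq_mul] at h2
  have h3 : (J.card : ℝ) * ((V.card : ℝ) ^ 2 / (4 * J.card)) = V.card ^ 2 / 4 := by field_simp
  nlinarith

lemma phase_two (S : Finset α) (J : Finset β) (N : α → Finset β) (l u : ℝ) (hl : 0 < l)
    (hu : 0 < u) (hS : (S.card : ℝ) ≤ u) (hN : ∀ b ∈ S, N b ⊆ J ∧ l ≤ (N b).card)
    (hJ0 : 0 < J.card) :
    ∃ Z ⊆ J, (Z.card : ℝ) ≤ 4 * J.card / l ∧
      (S.card : ℝ) ≤ (S.filter fun b => ∃ z ∈ Z, z ∈ N b).card + u / 4 := by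
  have hj : (0 : ℝ) < J.card := by exact_mod_cast hJ0
  obtain ⟨Z, hZ, hZc, hgain⟩ := greedy J
    (fun Z => ((S.filter fun b => ∃ z ∈ Z, z ∈ N b).card : ℝ)) (l * u / (4 * J.card)) u
    (by positivity) (by positivity)
    (fun Z => (Nat.cast_le.mpr (card_filter_le _ _)).trans hS)
  refine ⟨Z, hZ, ?_, ?_⟩
  · rw [le_div_iff₀ hl]
    rw [div_mul_eq_mul_div, div_le_iff₀ (by positivity)] at hZc
    nlinarith
  set T := S.filter fun b => ¬ ∃ z ∈ Z, z ∈ N b with hT
  have hsplit : ((S.filter fun b => ∃ z ∈ Z, z ∈ N b).card : ℝ) + T.card = S.card := by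
    exact_mod_cast card_filter_add_card_filter_not (s := S) _
  have h1 : ∀ z ∈ J, ((T.filter fun b => z ∈ N b).card : ℝ) ≤ l * u / (4 * J.card) := by
    intro z hz
    have h2 := hgain z hz
    have h3 : (S.filter fun b => ∃ z ∈ Z, z ∈ N b) ∪ (T.filter fun b => z ∈ N b) ⊆
        S.filter fun b => ∃ w ∈ insert z Z, w ∈ N b := by
      intro b hb
      simp only [hT, mem_union, mem_filter] at hb ⊢
      rcases hb with ⟨h, w, hw, hw'⟩ | ⟨⟨h, _⟩, h'⟩
      · exact ⟨h, w, mem_insert_of_mem hw, hw'⟩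
      · exact ⟨h, z, mem_insert_self _ _, h'⟩
    have h4 : Disjoint (S.filter fun b => ∃ z ∈ Z, z ∈ N b) (T.filter fun b => z ∈ N b) := by
      rw [disjoint_left]
      intro b hb hb'
      simp only [hT, mem_filter] at hb hb'
      exact hb'.1.2 hb.2
    have h5 := card_le_card h3
    rw [card_union_of_disjoint h4] at h5
    have h6 := (Nat.cast_le (α := ℝ)).mpr h5
    push_cast at h6
    linarith
  have h2 := Finset.sum_le_sum h1
  rw [sum_const, nsmul_eq_mul] at h2
  have h3 : (J.card : ℝ) * (l * u / (4 * J.card)) = l * u / 4 := by field_simp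
  have h4 : ∑ z ∈ J, ((T.filter fun b => z ∈ N b).card : ℝ) = ∑ b ∈ T, ((N b).card : ℝ) := by
    simp only [card_filter]
    push_cast
    rw [Finset.sum_comm]
    refine Finset.sum_congr rfl fun b hb => ?_
    rw [Finset.sum_ite_mem, inter_eq_right.mpr (hN b (mem_filter.mp hb).1).1]
    simp
  have h5 : (T.card : ℝ) * l ≤ ∑ b ∈ T, ((N b).card : ℝ) := by
    rw [← nsmul_eq_mul, ← sum_const]
    exact Finset.sum_le_sum fun b hb => (hN b (mem_filter.mp hb).1).2
  nlinarith

lemma two_phase (V : Finset α) (J : Finset β) (x y : α → α → β) (l : ℝ) (hl : 0 < l)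
    (hV : 2 * (l ^ 2 + 1) ≤ V.card)
    (hJ : ∀ b ∈ V, ∀ c ∈ V.erase b, x b c ∈ J ∧ y b c ∈ J)
    (hdeg : ∀ b ∈ V, ∀ z ∈ J, (((V.erase b).filter fun c => x b c = z ∨ y b c = z).card : ℝ) ≤ l)
    (hinj : ∀ b ∈ V, ∀ c ∈ V.erase b, ∀ c' ∈ V.erase b, x b c = x b c' → y b c = y b c' → c = c')
    (hJ0 : 0 < J.card) :
    ∃ Z : Finset β, (Z.card : ℝ) ≤ 8 * J.card * l / V.card + 4 * J.card / l ∧ ∃ T ⊆ V,
      (V.card : ℝ) ≤ 4 * T.card ∧ ∀ b ∈ T, ∃ c ∈ V.erase b, x b c ∈ Z ∧ y b c ∈ Z := by
  have hu : (0 : ℝ) < V.card := by nlinarith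
  obtain ⟨Z, -, hZc, hZ⟩ := phase_one V J x y l hl hV hJ hdeg hinj hJ0
  obtain ⟨Z', -, hZc', hZ'⟩ := phase_two (V.filter fun b => l ≤ (nb V x y b Z).card) J
    (fun b => nb V x y b Z) l V.card hl hu (Nat.cast_le.mpr (card_filter_le _ _))
    (fun b hb => by
      rw [mem_filter] at hb
      refine ⟨fun w hw => ?_, hb.2⟩
      obtain ⟨c, hc, rfl⟩ := mem_image.mp hw
      exact (hJ b hb.1 c (mem_filter.mp hc).1).2) hJ0
  refine ⟨Z ∪ Z', ?_, _, (filter_subset _ _).trans (filter_subset _ _), by linarith, ?_⟩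
  · have := (Nat.cast_le (α := ℝ)).mpr (card_union_le Z Z')
    push_cast at this
    linarith
  · intro b hb
    obtain ⟨z, hz, hz'⟩ := (mem_filter.mp hb).2
    obtain ⟨c, hc, rfl⟩ := mem_image.mp hz'
    rw [mem_filter] at hc
    exact ⟨c, hc.1, mem_union_left _ hc.2, mem_union_right _ hz⟩

end Pool.Agent.P.MP_5f6af4_co.Sp
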