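import Pool.Agent.P.MP_5f6af4_co.Sp.Sh
import Pool.Agent.P.MP_5f6af4_co.Sp.Greedy

/-! Few new generators merge a positive proportion of the anchors. -/

set_option autoImplicit false
set_option linter.unusedSectionVars false

namespace Pool.Agent.P.MP_5f6af4_co.Sp

open Finset

variable {G : Type} [AddCommGroup G] [DecidableEq G]

/-- the anchor `b` can be replaced by another one after doubling -/
def Mer (R K : Finset G) (M : ℕ) (b : G) : Prop :=
  ∃ y ∈ insert 0 R, y ≠ b ∧ y ≠ -b ∧ Sh K M (b + b - (y + y))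

lemma Mer.mono {R K K' : Finset G} {M M' : ℕ} {b : G} (h : Mer R K M b) (hK : K ⊆ K')
    (hM : M ≤ M') : Mer R K' M' b := by
  obtain ⟨y, hy, h1, h2, h3⟩ := h
  exact ⟨y, hy, h1, h2, h3.mono hK hM⟩

lemma neg_mem_J {R : Finset G} (hR : ∀ b ∈ R, -b ∈ R) {y : G} (hy : y ∈ insert 0 R) :
    -y ∈ insert 0 R := by
  rw [mem_insert] at hy ⊢
  rcases hy with rfl | hy
  · simp
  · exact Or.inr (hR y hy)

lemma mer_one {R K : Finset G} {N : ℕ} {b y : G} (hb : b ≠ 0) (hy : y ∈ insert 0 R)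
    (h : Sh K N (b - y)) (hne : y ≠ b) : Mer R K (2 * N) b := by
  by_cases hy' : y = -b
  · subst hy'
    refine ⟨0, mem_insert_self _ _, hb.symm, fun h0 => hb (neg_eq_zero.mp h0.symm), ?_⟩
    exact (h.mono Subset.rfl (by omega)).of_eq (by abel)
  · exact ⟨y, hy, hne, hy', ((h.add h).mono Subset.rfl (by omega)).of_eq (by abel)⟩

lemma mer_two {R K : Finset G} (hR : ∀ b ∈ R, -b ∈ R) {N : ℕ} {b b' y : G} (hb : b ≠ 0)
    (he : b' = b ∨ b' = -b) (hy : y ∈ insert 0 R) (h : Sh K N (b' - y)) (hne : y ≠ b') :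
    Mer R K (2 * N) b := by
  rcases he with rfl | rfl
  · exact mer_one hb hy h hne
  · refine mer_one hb (neg_mem_J hR hy) (h.neg.of_eq (by abel)) fun h' => hne ?_
    rw [← h', neg_neg]

lemma comb (K R U : Finset G) (M : ℕ) (e : G → G) (hM : 1 ≤ M) (hR0 : (0 : G) ∉ R)
    (hR : ∀ b ∈ R, -b ∈ R) (hU : U ⊆ R) (hUs : ∀ b ∈ U, -b ∉ U) (he : ∀ b, e b = b ∨ e b = -b)
    (hu : 16 ≤ U.card) (hj : R.card ≤ 18 * U.card)
    (hrel : ∀ b ∈ U, ∀ c ∈ U.erase b, ∃ x ∈ insert 0 R, ∃ y ∈ insert 0 R,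
      Sh K (4 * M) (b + e c - x - y) ∧ ¬ (x = b ∧ y = e c) ∧ ¬ (y = b ∧ x = e c)) :
    ∃ K', K ⊆ K' ∧ (K'.card : ℝ) ≤ K.card + 384 * √(U.card) ∧
      ∃ T ⊆ U, U.card ≤ 8 * T.card ∧ ∀ b ∈ T, Mer R K' (20 * M) b := by
  classical
  have hb0 : ∀ b ∈ U, b ≠ 0 := fun b hb h => hR0 (h ▸ hU hb)
  have heJ : ∀ c ∈ U, e c ∈ insert 0 R := by
    intro c hc
    rcases he c with h | h <;> rw [h]
    · exact mem_insert_of_mem (hU hc)
    · exact mem_insert_of_mem (hR c (hU hc))
  set u : ℝ := (U.card : ℝ) with hudef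
  have hu' : (16 : ℝ) ≤ u := by rw [hudef]; exact_mod_cast hu
  set s := √u with hs
  have hss : s ^ 2 = u := Real.sq_sqrt (by linarith)
  have hs4 : 4 ≤ s := Real.le_sqrt_of_sq_le (by linarith)
  obtain ⟨D, -, hDc, hgain⟩ := greedy ((U ×ˢ insert 0 R).image fun p => p.1 - p.2)
    (fun D => ((U.filter (Mer R (K ∪ D) (20 * M))).card : ℝ)) (s / 4) u (by positivity)
    (by positivity) (fun D => Nat.cast_le.mpr (card_filter_le _ _))
  have hD : (D.card : ℝ) ≤ 4 * s := by nlinarith
  have hKD : ((K ∪ D).card : ℝ) ≤ K.card + 4 * s := by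
    have := (Nat.cast_le (α := ℝ)).mpr (card_union_le K D)
    push_cast at this
    linarith
  set V := U.filter fun b => ¬ Mer R (K ∪ D) (20 * M) b with hV
  have hsplit : (U.filter (Mer R (K ∪ D) (20 * M))).card + V.card = U.card :=
    card_filter_add_card_filter_not (s := U) _
  by_cases hcase : 2 * V.card ≤ U.card
  · exact ⟨K ∪ D, subset_union_left, by linarith, _, filter_subset _ _, by omega,
      fun b hb => (mem_filter.mp hb).2⟩
  have hVU : V ⊆ U := filter_subset _ _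
  have hVu : u ≤ 2 * V.card := by
    rw [hudef]
    exact_mod_cast (by omega)
  have hnot : ∀ b ∈ V, ∀ N, N ≤ 20 * M → ¬ Mer R K N b := fun b hb N hN h =>
    (mem_filter.mp hb).2 (h.mono subset_union_left hN)
  have hrel' : ∀ b c, ∃ x y, b ∈ V → c ∈ V.erase b → x ∈ insert 0 R ∧ y ∈ insert 0 R ∧
      Sh K (4 * M) (b + e c - x - y) ∧ ¬ (x = b ∧ y = e c) ∧ ¬ (y = b ∧ x = e c) := by
    intro b c
    by_cases h : b ∈ V ∧ c ∈ V.erase b
    · obtain ⟨x, hx, y, hy, h'⟩ := hrel b (hVU h.1) c (erase_subset_erase b hVU h.2)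
      exact ⟨x, y, fun _ _ => ⟨hx, hy, h'⟩⟩
    · exact ⟨0, 0, fun h1 h2 => (h ⟨h1, h2⟩).elim⟩
  choose x y hxy using hrel'
  have pop : ∀ b ∈ V, ∀ c ∈ V, ∀ z w, z ∈ insert 0 R → w ∈ insert 0 R →
      Sh K (4 * M) (b + e c - z - w) → ¬ (z = b ∧ w = e c) →
      Mer R (K ∪ insert (b - z) D) (20 * M) c := by
    intro b hb c hc z w hz hw h hne
    by_cases hw' : w = e c
    · subst hw'
      exact (hnot b hb (2 * (4 * M)) (by omega) (mer_one (hb0 b (hVU hb)) hz
        (h.of_eq (by abel)) fun h' => hne ⟨h', rfl⟩)).elim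
    · have h1 : Sh (K ∪ insert (b - z) D) 1 (b - z) := Sh.mem (by simp)
      have h2 := ((h.mono subset_union_left le_rfl).add h1.neg).of_eq
        (y := e c - w) (by abel)
      exact (mer_two hR (hb0 c (hVU hc)) (he c) hw h2 hw').mono Subset.rfl (by omega)
  obtain ⟨Z, hZc, T, hT, hTc, hTZ⟩ := two_phase V (insert 0 R) x y (s / 4) (by positivity)
    (by nlinarith) (fun b hb c hc => ⟨(hxy b c hb hc).1, (hxy b c hb hc).2.1⟩)
    (fun b hb z hz => by
      have h1 := hgain (b - z) (mem_image.mpr ⟨(b, z), mem_product.mpr ⟨hVU hb, hz⟩, rfl⟩)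
      have h3 : (U.filter (Mer R (K ∪ D) (20 * M))) ∪
          ((V.erase b).filter fun c => x b c = z ∨ y b c = z) ⊆
          U.filter (Mer R (K ∪ insert (b - z) D) (20 * M)) := by
        intro c hc
        rw [mem_union, mem_filter, mem_filter] at hc
        rw [mem_filter]
        rcases hc with ⟨h, h'⟩ | ⟨hc, h'⟩
        · exact ⟨h, h'.mono (union_subset_union_right (subset_insert _ _)) le_rfl⟩
        · obtain ⟨p1, p2, p3, p4, p5⟩ := hxy b c hb hc
          have hcV := mem_of_mem_erase hc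
          refine ⟨hVU hcV, ?_⟩
          rcases h' with rfl | rfl
          · exact pop b hb c hcV _ _ p1 p2 p3 p4
          · exact pop b hb c hcV _ _ p2 p1 (p3.of_eq (by abel)) p5
      have h4 : Disjoint (U.filter (Mer R (K ∪ D) (20 * M)))
          ((V.erase b).filter fun c => x b c = z ∨ y b c = z) := by
        rw [disjoint_left]
        intro c hc hc'
        exact (mem_filter.mp (mem_of_mem_erase (mem_filter.mp hc').1)).2 (mem_filter.mp hc).2
      have h5 := card_le_card h3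
      rw [card_union_of_disjoint h4] at h5
      have h6 := (Nat.cast_le (α := ℝ)).mpr h5
      push_cast at h6
      linarith)
    (fun b hb c hc c' hc' h1 h2 => by
      by_contra hne
      have p := (hxy b c hb hc).2.2.1
      have p' := (hxy b c' hb hc').2.2.1
      rw [h1, h2] at p
      have hcV := mem_of_mem_erase hc
      have hcV' := mem_of_mem_erase hc'
      refine hnot c hcV (2 * (4 * M + 4 * M)) (by omega) (mer_two hR (hb0 c (hVU hcV)) (he c)
        (heJ c' (hVU hcV')) ((p.add p'.neg).of_eq (by abel)) fun h => ?_)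
      rcases he c with q | q <;> rcases he c' with q' | q' <;> rw [q, q'] at h
      · exact hne h.symm
      · exact hUs c' (hVU hcV') (h ▸ hVU hcV)
      · exact hUs c (hVU hcV) (h ▸ hVU hcV')
      · exact hne (neg_injective h).symm)
    (card_pos.mpr (insert_nonempty _ _))
  refine ⟨K ∪ D ∪ Z, subset_union_left.trans subset_union_left, ?_, T, hT.trans hVU, ?_, ?_⟩
  · have h1 := (Nat.cast_le (α := ℝ)).mpr (card_union_le (K ∪ D) Z)
    push_cast at h1
    have h2 : ((insert 0 R).card : ℝ) ≤ 19 * u := by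
      have := card_insert_le 0 R
      rw [hudef]
      exact_mod_cast (by omega)
    have h3 : 8 * ((insert 0 R).card : ℝ) * (s / 4) / V.card ≤ 76 * s := by
      rw [div_le_iff₀ (by linarith)]
      nlinarith
    have h4 : 4 * ((insert 0 R).card : ℝ) / (s / 4) ≤ 304 * s := by
      rw [div_le_iff₀ (by linarith)]
      nlinarith
    linarith
  · have : u ≤ 8 * T.card := by linarith
    rw [hudef] at this
    exact_mod_cast this
  · intro b hb
    obtain ⟨c, hc, hx, hy⟩ := hTZ b hb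
    have p := (hxy b c (hT hb) hc).2.2.1
    have hcV := mem_of_mem_erase hc
    have h1 : Sh (K ∪ D ∪ Z) 1 (x b c) := Sh.mem (mem_union_right _ hx)
    have h2 : Sh (K ∪ D ∪ Z) 1 (y b c) := Sh.mem (mem_union_right _ hy)
    have h3 := (((p.mono (subset_union_left.trans subset_union_left) le_rfl).add h1).add
      h2).of_eq (y := b - -e c) (by abel)
    refine (mer_one (hb0 b (hVU (hT hb))) (neg_mem_J hR (heJ c (hVU hcV))) h3 fun h => ?_).mono
      Subset.rfl (by omega)
    rcases he c with q | q <;> rw [q] at h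
    · exact hUs c (hVU hcV) (h ▸ hVU (hT hb))
    · exact (ne_of_mem_erase hc) (by rw [← h, neg_neg])

end Pool.Agent.P.MP_5f6af4_co.Sp
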