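import Pool.Agent.P.MP_5f6af4_co.Sp.Comb

/-! Sets in which every difference is repeated force small torsion. -/

set_option autoImplicit false
set_option linter.unusedSectionVars false

namespace Pool.Agent.P.MP_5f6af4_co.Sp

open Finset

variable {G : Type} [AddCommGroup G] [DecidableEq G] {ι : Type} [Fintype ι] [DecidableEq ι]

/-- every difference has a further representation, even outside a pair of equal colour -/
def NU (σ : ι → G) (col : ι → ι → Bool) : Prop :=
  ∀ s s' u u', s ≠ s' → σ s - σ s' = σ u - σ u' → col s u' = col u s' →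
    ∃ t t', σ t - σ t' = σ s - σ s' ∧ t ≠ s ∧ t ≠ u

/-- the symmetric set of nonzero anchors -/
def RR (a : ι → G) : Finset G := (univ.image a ∪ univ.image fun s => -a s).erase 0

lemma mem_RR {a : ι → G} {z : G} : z ∈ RR a ↔ z ≠ 0 ∧ ∃ s, a s = z ∨ -a s = z := by
  simp only [RR, mem_erase, mem_union, mem_image, mem_univ, true_and, exists_or]

lemma RR_neg {a : ι → G} (z : G) (hz : z ∈ RR a) : -z ∈ RR a := by
  rw [mem_RR] at hz ⊢
  obtain ⟨h, s, hs⟩ := hz
  refine ⟨neg_ne_zero.mpr h, s, ?_⟩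
  rcases hs with rfl | rfl <;> simp

lemma mem_J (a : ι → G) (s : ι) : a s ∈ insert 0 (RR a) := by
  rw [mem_insert, mem_RR]
  by_cases h : a s = 0
  · exact Or.inl h
  · exact Or.inr ⟨h, s, Or.inl rfl⟩

lemma extreme {K : Finset G} {M : ℕ} {θ : G → ℚ} (hθ : Frei K M θ) {σ a : ι → G}
    (hσ : Function.Injective σ) (hs : ∀ s, Sh K M (σ s - a s)) {s s' t t' : ι}
    (h1 : a t = a s) (h2 : a t' = a s') (h3 : σ t - σ t' = σ s - σ s')
    (h4 : θ (σ t - a t) ≤ θ (σ s - a s)) (h5 : θ (σ s' - a s') ≤ θ (σ t' - a t')) : t = s := by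
  have e1 := (hθ _ _ _ _ (hs t) (hs s') (hs s) (hs t')).mp (by
    rw [h1, h2]
    linear_combination (norm := abel) h3)
  have e2 := (hθ _ _ _ _ (hs t) (hs t) (hs s) (hs t)).mpr (by linarith)
  apply hσ
  rw [h1] at e2
  linear_combination (norm := abel) e2

lemma base {K : Finset G} {M : ℕ} {θ : G → ℚ} (hθ : Frei K M θ) {σ : ι → G}
    {col : ι → ι → Bool} (hσ : Function.Injective σ) (hN : NU σ col) (hs : ∀ s, Sh K M (σ s)) :
    Fintype.card ι ≤ 1 := by
  rw [Fintype.card_le_one_iff]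
  intro i j
  obtain ⟨s, -, hmax⟩ := exists_max_image univ (fun s => θ (σ s)) ⟨i, mem_univ i⟩
  obtain ⟨s', -, hmin⟩ := exists_min_image univ (fun s => θ (σ s)) ⟨i, mem_univ i⟩
  have hs' : ∀ s, Sh K M (σ s - (fun _ => 0 : ι → G) s) := fun s => by simpa using hs s
  by_cases h : s = s'
  · subst h
    have h1 := le_antisymm (hmax i (mem_univ _)) (hmin i (mem_univ _))
    have h2 := le_antisymm (hmax j (mem_univ _)) (hmin j (mem_univ _))
    have e2 := (hθ _ _ _ _ (hs i) (hs i) (hs j) (hs i)).mpr (by linarith)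
    exact hσ (add_right_cancel e2)
  · obtain ⟨t, t', h1, h2, -⟩ := hN s s' s s' h rfl rfl
    exact (h2 (extreme hθ hσ hs' rfl rfl h1 (by simpa using hmax t (mem_univ _))
      (by simpa using hmin t' (mem_univ _)))).elim

lemma short_rel {K : Finset G} {M : ℕ} {σ a : ι → G} (hs : ∀ s, Sh K M (σ s - a s))
    {s s' t t' : ι} (h : σ t - σ t' = σ s - σ s') :
    Sh K (4 * M) (a s + -a s' - a t - -a t') := by
  refine ((((hs s).neg.add (hs s')).add (hs t)).add (hs t').neg).mono Subset.rfl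
    (by omega) |>.of_eq ?_
  linear_combination (norm := abel) h

lemma relations [Nonempty ι] {K : Finset G} {M : ℕ} {θ : G → ℚ} (hθ : Frei K M θ) {σ a : ι → G}
    {col : ι → ι → Bool} (hσ : Function.Injective σ) (hN : NU σ col)
    (hs : ∀ s, Sh K M (σ s - a s)) (h2 : ∀ x : G, x + x = 0 → x = 0) :
    ∃ U ⊆ RR a, ∃ e : G → G, (∀ b ∈ U, -b ∉ U) ∧ (∀ b, e b = b ∨ e b = -b) ∧
      (RR a).card ≤ 18 * U.card ∧
      ∀ b ∈ U, ∀ c ∈ U.erase b, ∃ x ∈ insert 0 (RR a), ∃ y ∈ insert 0 (RR a),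
        Sh K (4 * M) (b + e c - x - y) ∧ ¬ (x = b ∧ y = e c) ∧ ¬ (y = b ∧ x = e c) := by
  classical
  set h : ι → ℚ := fun s => θ (σ s - a s) with hh
  have hmax : ∀ b : G, ∃ s, b ∈ univ.image a → a s = b ∧ ∀ t, a t = b → h t ≤ h s := by
    intro b
    by_cases hb : b ∈ univ.image a
    · obtain ⟨i, -, hi⟩ := mem_image.mp hb
      obtain ⟨s, hs1, hs2⟩ := exists_max_image (univ.filter fun t => a t = b) h ⟨i, by simp [hi]⟩
      exact ⟨s, fun _ => ⟨by simpa using hs1, fun t ht => hs2 t (by simp [ht])⟩⟩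
    · exact ⟨Classical.arbitrary ι, fun h' => (hb h').elim⟩
  have hmin : ∀ b : G, ∃ s, b ∈ univ.image a → a s = b ∧ ∀ t, a t = b → h s ≤ h t := by
    intro b
    by_cases hb : b ∈ univ.image a
    · obtain ⟨i, -, hi⟩ := mem_image.mp hb
      obtain ⟨s, hs1, hs2⟩ := exists_min_image (univ.filter fun t => a t = b) h ⟨i, by simp [hi]⟩
      exact ⟨s, fun _ => ⟨by simpa using hs1, fun t ht => hs2 t (by simp [ht])⟩⟩
    · exact ⟨Classical.arbitrary ι, fun h' => (hb h').elim⟩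
  choose al hal using hmax
  choose be hbe using hmin
  set T := (univ.image a).erase 0 with hT
  have hRT : (RR a).card ≤ 2 * T.card := by
    have : RR a ⊆ T ∪ T.image fun z => -z := by
      intro z hz
      obtain ⟨h0, s, hs'⟩ := mem_RR.mp hz
      rcases hs' with rfl | rfl
      · exact mem_union_left _ (mem_erase.mpr ⟨h0, mem_image_of_mem _ (mem_univ _)⟩)
      · exact mem_union_right _ (mem_image_of_mem _
          (mem_erase.mpr ⟨neg_ne_zero.mp h0, mem_image_of_mem _ (mem_univ _)⟩))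
    have h3 := (card_le_card this).trans (card_union_le _ _)
    have h4 := card_image_le (s := T) (f := fun z => -z)
    omega
  obtain ⟨U0, hU0, hU0c, hU0s⟩ := indep (fun z : G => -z) _ T le_rfl fun z hz h' =>
    (mem_erase.mp hz).1 (h2 z (by linear_combination (norm := abel) -h'))
  let cl : G → Option Bool := fun b =>
    if -b ∈ univ.image a then some (col (al b) (be (-b))) else none
  obtain ⟨o, ho⟩ : ∃ o, U0.card ≤ 3 * (U0.filter fun b => cl b = o).card := by
    by_contra hc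
    push Not at hc
    have h3 := card_eq_sum_card_fiberwise (s := U0) (t := univ) (f := cl) (fun _ _ => by simp)
    rw [Fintype.sum_option, Fintype.sum_bool] at h3
    have := hc none
    have := hc (some true)
    have := hc (some false)
    omega
  have hUa : ∀ b ∈ U0, b ∈ univ.image a := fun b hb => mem_of_mem_erase (hU0 hb)
  have hJ' : ∀ t, -a t ∈ insert 0 (RR a) := fun t => neg_mem_J RR_neg (mem_J a t)
  refine ⟨U0.filter fun b => cl b = o, fun b hb => ?_, fun b => if o = none then -b else b,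
    fun b hb hb' => hU0s b (mem_filter.mp hb).1 (mem_filter.mp hb').1, fun b => ?_, by omega, ?_⟩
  · have := hU0 (mem_filter.mp hb).1
    obtain ⟨s, -, rfl⟩ := mem_image.mp (mem_of_mem_erase this)
    exact mem_RR.mpr ⟨(mem_erase.mp this).1, s, Or.inl rfl⟩
  · split_ifs <;> simp
  cases o with
  | none =>
    intro b hb c hc
    obtain ⟨hcb, hc⟩ := mem_erase.mp hc
    rw [mem_filter] at hb hc
    have hnb : -b ∉ univ.image a := fun h' => by
      have := hb.2
      simp only [cl, if_pos h'] at this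
      exact Option.some_ne_none _ this
    obtain ⟨p1, p2⟩ := hal b (hUa b hb.1)
    obtain ⟨q1, q2⟩ := hbe c (hUa c hc.1)
    obtain ⟨t, t', h3, h4, -⟩ := hN (al b) (be c) (al b) (be c)
      (fun h' => hcb (by rw [← q1, ← h', p1])) rfl rfl
    refine ⟨a t, mem_J a t, -a t', hJ' t', ?_, ?_, ?_⟩
    · have := short_rel hs h3
      rwa [p1, q1] at this
    · rintro ⟨r1, r2⟩
      simp only [if_true, neg_inj] at r2
      exact h4 (extreme hθ hσ hs (r1.trans p1.symm) (r2.trans q1.symm) h3 (p2 t r1) (q2 t' r2))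
    · rintro ⟨r1, -⟩
      exact hnb (mem_image.mpr ⟨t', mem_univ _, by rw [← r1, neg_neg]⟩)
  | some o =>
    have hneg : ∀ b, cl b = some o → -b ∈ univ.image a ∧ col (al b) (be (-b)) = o := by
      intro b hb
      by_cases h' : -b ∈ univ.image a
      · simp only [cl, if_pos h', Option.some.injEq] at hb
        exact ⟨h', hb⟩
      · simp only [cl, if_neg h'] at hb
        exact (Option.some_ne_none _ hb.symm).elim
    have key : ∀ b ∈ U0, ∀ c ∈ U0, cl b = some o → cl c = some o →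
        h (al c) - h (be (-b)) ≤ h (al b) - h (be (-c)) →
        ∃ x ∈ insert 0 (RR a), ∃ y ∈ insert 0 (RR a),
          Sh K (4 * M) (b + c - x - y) ∧ ¬ (x = b ∧ y = c) ∧ ¬ (y = b ∧ x = c) := by
      intro b hb c hc hbo hco hle
      obtain ⟨p1, p2⟩ := hal b (hUa b hb)
      obtain ⟨q1, q2⟩ := hbe (-c) (hneg c hco).1
      obtain ⟨p3, p4⟩ := hal c (hUa c hc)
      obtain ⟨q3, q4⟩ := hbe (-b) (hneg b hbo).1
      have hne : al b ≠ be (-c) := fun h' => hU0s c hc (by rw [← q1, ← h', p1]; exact hb)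
      have hex : ∃ t t', σ t - σ t' = σ (al b) - σ (be (-c)) ∧ t ≠ al b ∧
          (σ (al b) - σ (be (-c)) = σ (al c) - σ (be (-b)) → t ≠ al c) := by
        by_cases h' : σ (al b) - σ (be (-c)) = σ (al c) - σ (be (-b))
        · obtain ⟨t, t', r1, r2, r3⟩ := hN _ _ _ _ hne h'
            ((hneg b hbo).2.trans (hneg c hco).2.symm)
          exact ⟨t, t', r1, r2, fun _ => r3⟩
        · obtain ⟨t, t', r1, r2, -⟩ := hN _ _ _ _ hne rfl rfl
          exact ⟨t, t', r1, r2, fun h'' => (h' h'').elim⟩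
      obtain ⟨t, t', h3, h4, h5⟩ := hex
      refine ⟨a t, mem_J a t, -a t', hJ' t', ?_, ?_, ?_⟩
      · have := short_rel hs h3
        rwa [p1, q1, neg_neg] at this
      · rintro ⟨r1, r2⟩
        have r3 : a t' = -c := by rw [← r2, neg_neg]
        exact h4 (extreme hθ hσ hs (r1.trans p1.symm) (r3.trans q1.symm) h3 (p2 t r1) (q2 t' r3))
      · rintro ⟨r1, r2⟩
        have r3 : a t' = -b := by rw [← r1, neg_neg]
        have e1 := (hθ _ _ _ _ (hs t) (hs (be (-c))) (hs (al b)) (hs t')).mp (by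
          rw [r2, r3, p1, q1]
          linear_combination (norm := abel) h3)
        have e2 := p4 t r2
        have e3 := q4 t' r3
        have e4 := (hθ _ _ _ _ (hs (al c)) (hs (be (-c))) (hs (al b)) (hs (be (-b)))).mpr (by
          simp only [hh] at hle e2 e3
          linarith)
        rw [p1, q1, p3, q3] at e4
        have e5 : σ (al b) - σ (be (-c)) = σ (al c) - σ (be (-b)) := by
          linear_combination (norm := abel) -e4
        exact h5 e5 (extreme hθ hσ hs (r2.trans p3.symm) (r3.trans q3.symm) (h3.trans e5) e2 e3)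
    intro b hb c hc
    have hc := mem_of_mem_erase hc
    rw [mem_filter] at hb hc
    simp only [reduceCtorEq, if_false]
    rcases le_total (h (al c) - h (be (-b))) (h (al b) - h (be (-c))) with hle | hle
    · exact key b hb.1 c hc.1 hb.2 hc.2 hle
    · obtain ⟨x, hx, y, hy, r1, r2, r3⟩ := key c hc.1 b hb.1 hc.2 hb.2 hle
      exact ⟨x, hx, y, hy, r1.of_eq (by abel), fun h' => r3 ⟨h'.2, h'.1⟩,
        fun h' => r2 ⟨h'.2, h'.1⟩⟩

lemma reanchor (a : ι → G) (K : Finset G) (M : ℕ) (T : Finset G) (hT : T ⊆ RR a)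
    (hM : ∀ b ∈ T, Mer (RR a) K M b) :
    ∃ a' : ι → G, (∀ s, Sh K M (a s + a s - a' s)) ∧
      9 * (RR a').card + T.card ≤ 9 * (RR a).card := by
  have hex : ∀ b, ∃ y, b ∈ T → y ∈ insert 0 (RR a) ∧ y ≠ b ∧ y ≠ -b ∧ Sh K M (b + b - (y + y)) := by
    intro b
    by_cases hb : b ∈ T
    · obtain ⟨y, h⟩ := hM b hb
      exact ⟨y, fun _ => h⟩
    · exact ⟨0, fun h => (hb h).elim⟩
  choose p hp using hex
  obtain ⟨W1, hW1, hc1, hf1⟩ := indep p _ T le_rfl fun b hb => (hp b hb).2.1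
  obtain ⟨W, hW, hc2, hf2⟩ := indep (fun b => -p b) _ W1 le_rfl fun b hb h =>
    (hp b (hW1 hb)).2.2.1 (neg_eq_iff_eq_neg.mp h)
  have hq : ∀ s, ∃ q ∈ insert 0 (RR a), q ∉ W ∧ -q ∉ W ∧ Sh K M (a s + a s - (q + q)) := by
    intro s
    by_cases h1 : a s ∈ W
    · obtain ⟨r1, -, -, r2⟩ := hp _ (hW1 (hW h1))
      exact ⟨_, r1, fun h => hf1 _ (hW h1) (hW h), hf2 _ h1, r2⟩
    by_cases h2 : -a s ∈ W
    · obtain ⟨r1, -, -, r2⟩ := hp _ (hW1 (hW h2))
      refine ⟨-p (-a s), neg_mem_J RR_neg r1, hf2 _ h2, ?_, r2.neg.of_eq (by abel)⟩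
      rw [neg_neg]
      exact fun h => hf1 _ (hW h2) (hW h)
    · exact ⟨a s, mem_J a s, h1, h2, (Sh.zero K M).of_eq (by abel)⟩
  choose q hq1 hq2 hq3 hq4 using hq
  refine ⟨fun s => q s + q s, hq4, ?_⟩
  have h1 : RR (fun s => q s + q s) ⊆ (RR a \ W).image fun y => y + y := by
    intro z hz
    obtain ⟨h0, s, hs⟩ := mem_RR.mp hz
    have hq0 : q s ∈ RR a := by
      refine (mem_insert.mp (hq1 s)).resolve_left fun h => h0 ?_
      rcases hs with rfl | rfl <;> simp [h]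
    rcases hs with rfl | rfl
    · exact mem_image.mpr ⟨q s, mem_sdiff.mpr ⟨hq0, hq2 s⟩, rfl⟩
    · exact mem_image.mpr ⟨-q s, mem_sdiff.mpr ⟨RR_neg _ hq0, hq3 s⟩, by abel⟩
  have h2 := (card_le_card h1).trans card_image_le
  have h3 := card_sdiff_add_card_eq_card ((hW.trans hW1).trans hT)
  omega

theorem core_ind (c : ℕ) (hc : (2591 / 2592 : ℝ) ^ c < 1 / 22) (κ μ : ℝ) (col : ι → ι → Bool)
    (h2 : ∀ x : G, x + x = 0 → x = 0)
    (hF : ∀ (K : Finset G) (M : ℕ), 1 ≤ M → (K.card : ℝ) ≤ κ → (M : ℝ) ≤ μ → ∃ θ, Frei K M θ)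
    (r : ℕ) : ∀ (σ a : ι → G) (K : Finset G) (M : ℕ), (RR a).card = r → Function.Injective σ →
      NU σ col → (∀ s, Sh K M (σ s - a s)) → 1 ≤ M → (K.card : ℝ) + 10 ^ 6 * √r ≤ κ →
      2 * M * ((r : ℝ) + 1) ^ c ≤ μ → Fintype.card ι ≤ 1 := by
  induction r using Nat.strong_induction_on with
  | _ r ih =>
  intro σ a K M hr hσ hN hs hM hκ hμ
  have hr0 : (0 : ℝ) ≤ r := Nat.cast_nonneg r
  have hM' : (1 : ℝ) ≤ M := by exact_mod_cast hM
  have hpow : (1 : ℝ) ≤ ((r : ℝ) + 1) ^ c := one_le_pow₀ (by linarith)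
  have hsq : √(r : ℝ) ^ 2 = r := Real.sq_sqrt hr0
  have hsq0 := Real.sqrt_nonneg (r : ℝ)
  by_cases hsmall : r < 288
  · obtain ⟨θ, hθ⟩ := hF (K ∪ RR a) (M + 1) (by omega) (by
      have h1 := (Nat.cast_le (α := ℝ)).mpr (card_union_le K (RR a))
      have h3 : (r : ℝ) ≤ 288 := by exact_mod_cast hsmall.le
      have h4 : √(r : ℝ) ≤ 17 := Real.sqrt_le_iff.mpr ⟨by norm_num, by linarith⟩
      rw [hr] at h1
      push_cast at h1
      nlinarith) (by push_cast; nlinarith)
    refine base hθ hσ hN fun s => ?_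
    have h1 : Sh (K ∪ RR a) 1 (a s) := by
      rcases mem_insert.mp (mem_J a s) with h | h
      · rw [h]
        exact Sh.zero _ _
      · exact Sh.mem (mem_union_right _ h)
    exact (((hs s).mono subset_union_left le_rfl).add h1).of_eq (by abel)
  rcases isEmpty_or_nonempty ι with hι | hι
  · simp
  obtain ⟨θ, hθ⟩ := hF K M hM (by nlinarith) (by nlinarith)
  obtain ⟨U, hU, e, hUs, he, hUc, hrel⟩ := relations hθ hσ hN hs h2
  obtain ⟨K', hK', hK'c, T, hT, hTc, hTm⟩ := comb K (RR a) U M e hM (notMem_erase _ _) RR_neg hU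
    hUs he (by omega) hUc hrel
  obtain ⟨a', ha', hcard⟩ := reanchor a K' (20 * M) T (hT.trans hU) hTm
  have hlt : 1296 * (RR a').card ≤ 1295 * r := by omega
  have hlt' : 1296 * ((RR a').card : ℝ) ≤ 1295 * r := by exact_mod_cast hlt
  have hbig : (288 : ℝ) ≤ r := by exact_mod_cast not_lt.mp hsmall
  have hinj : ∀ x y : G, x + x = y + y → x = y := fun x y h =>
    sub_eq_zero.mp (h2 _ (by linear_combination (norm := abel) h))
  refine ih (RR a').card (by omega) (fun s => σ s + σ s) a' K' (22 * M) rfl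
    (fun s t h => hσ (hinj _ _ h)) ?_ ?_ (by omega) ?_ ?_
  · intro s s' u u' hne h hcol
    obtain ⟨t, t', r1, r2, r3⟩ := hN s s' u u' hne
      (hinj _ _ (by beta_reduce at h; linear_combination (norm := abel) h)) hcol
    exact ⟨t, t', by beta_reduce; linear_combination (norm := abel) r1 + r1, r2, r3⟩
  · intro s
    have h1 := (hs s).mono hK' le_rfl
    exact (((h1.add h1).add (ha' s)).mono Subset.rfl (by omega)).of_eq (by abel)
  · have h1 : √(U.card : ℝ) ≤ √r :=
      Real.sqrt_le_sqrt (Nat.cast_le.mpr (hr ▸ card_le_card hU))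
    have h3 : √((RR a').card : ℝ) ≤ 2591 / 2592 * √r :=
      Real.sqrt_le_iff.mpr ⟨by positivity, by rw [mul_pow, hsq]; nlinarith⟩
    nlinarith
  · have h1 : ((RR a').card : ℝ) + 1 ≤ 2591 / 2592 * (r + 1) := by linarith
    have h3 := pow_le_pow_left₀ (by positivity) h1 c
    rw [mul_pow] at h3
    have h4 : (2591 / 2592 : ℝ) ^ c * ((r : ℝ) + 1) ^ c ≤ 1 / 22 * ((r : ℝ) + 1) ^ c :=
      mul_le_mul_of_nonneg_right hc.le (by positivity)
    push_cast
    nlinarith

/-- The main combinatorial theorem. -/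
theorem core : ∃ C : ℕ, ∀ (G : Type) [AddCommGroup G] [DecidableEq G] (ι : Type) [Fintype ι]
    [DecidableEq ι] (σ : ι → G) (col : ι → ι → Bool) (m : ℕ), Function.Injective σ → NU σ col →
    Fintype.card ι ≤ m ^ 2 → NoTor G ((m : ℝ) ^ (C * m)) → Fintype.card ι ≤ 1 := by
  obtain ⟨c, hc⟩ := exists_pow_lt_of_lt_one (by norm_num : (0 : ℝ) < 1 / 22)
    (by norm_num : (2591 / 2592 : ℝ) < 1)
  refine ⟨(29 + 8 * c) * (2 * 10 ^ 6), fun G _ _ ι _ _ σ col m hσ hN hm hG => ?_⟩
  by_cases hm1 : m ≤ 1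
  · exact hm.trans (by nlinarith)
  have hm2 : (2 : ℝ) ≤ m := by exact_mod_cast not_le.mp hm1
  have hm3 : (1 : ℝ) ≤ m := by linarith
  refine core_ind c hc (2 * 10 ^ 6 * m) (m ^ (4 * c + 1)) col (fun x hx => ?_) ?_ _ σ σ ∅ 1 rfl hσ
    hN (fun s => by simpa using Sh.zero ∅ 1) le_rfl ?_ ?_
  · refine hG 2 two_pos ?_ x (by rwa [two_nsmul])
    refine le_trans (by exact_mod_cast hm2) (le_self_pow₀ hm3 ?_)
    have : 0 < m := by omega
    positivity
  · intro K M hM hK hMμ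
    refine exists_frei K M hM _ hG ?_
    have hK' : K.card ≤ 2 * 10 ^ 6 * m := by exact_mod_cast hK
    have h1 : ((K.card : ℝ) + 1) * (4 * M) ^ 2 ≤ m ^ (29 + 8 * c) := by
      have e1 : (2 : ℝ) ^ 22 ≤ m ^ 22 := pow_le_pow_left₀ (by norm_num) hm2 22
      have e2 : (2 : ℝ) ^ 4 ≤ m ^ 4 := pow_le_pow_left₀ (by norm_num) hm2 4
      have e3 : (K.card : ℝ) + 1 ≤ m ^ 22 * m := by nlinarith
      have e4 : (M : ℝ) ^ 2 ≤ (m ^ (4 * c + 1)) ^ 2 := pow_le_pow_left₀ (by positivity) hMμ 2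
      calc ((K.card : ℝ) + 1) * (4 * (M : ℝ)) ^ 2
          = ((K.card : ℝ) + 1) * (2 ^ 4 * (M : ℝ) ^ 2) := by ring
        _ ≤ (m : ℝ) ^ 22 * m * ((m : ℝ) ^ 4 * ((m : ℝ) ^ (4 * c + 1)) ^ 2) := by gcongr
        _ = (m : ℝ) ^ (29 + 8 * c) := by ring
    calc (((K.card : ℝ) + 1) * (4 * M) ^ 2) ^ K.card ≤ (m ^ (29 + 8 * c)) ^ K.card :=
          pow_le_pow_left₀ (by positivity) h1 _
      _ ≤ (m ^ (29 + 8 * c)) ^ (2 * 10 ^ 6 * m) := pow_le_pow_right₀ (one_le_pow₀ hm3) hK'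
      _ = _ := by rw [← pow_mul, ← mul_assoc]
  all_goals
    have h1 : (RR σ).card ≤ 2 * m ^ 2 := by
      have e1 := (card_erase_le (s := univ.image σ ∪ univ.image fun s => -σ s) (a := 0)).trans
        (card_union_le _ _)
      have e2 := card_image_le (s := univ) (f := σ)
      have e3 := card_image_le (s := univ) (f := fun s => -σ s)
      rw [card_univ] at e2 e3
      unfold RR
      omega
    have h3 : ((RR σ).card : ℝ) ≤ 2 * m ^ 2 := by exact_mod_cast h1
  · have h4 : √((RR σ).card : ℝ) ≤ 2 * m := Real.sqrt_le_iff.mpr ⟨by positivity, by nlinarith⟩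
    simp only [card_empty, Nat.cast_zero]
    linarith
  · have h4 : ((RR σ).card : ℝ) + 1 ≤ m ^ 4 := by nlinarith [sq_nonneg ((m : ℝ) ^ 2 - 4)]
    have h5 := pow_le_pow_left₀ (by positivity) h4 c
    rw [← pow_mul] at h5
    rw [pow_succ, Nat.cast_one, mul_one, mul_comm]
    gcongr

end Pool.Agent.P.MP_5f6af4_co.Sp
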