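import Mathlib

/-! Short combinations of a finite set and their rectification. -/

set_option autoImplicit false
set_option linter.unusedSectionVars false

namespace Pool.Agent.P.MP_5f6af4_co.Sp

open Finset Matrix

variable {G : Type} [AddCommGroup G] [DecidableEq G]

/-- `x` is an integer combination of members of `K` with coefficients of total size at most `M` -/
def Sh (K : Finset G) (M : ℕ) (x : G) : Prop :=
  ∃ n : G → ℤ, ∑ k ∈ K, |n k| ≤ M ∧ x = ∑ k ∈ K, n k • k

lemma Sh.zero (K : Finset G) (M : ℕ) : Sh K M 0 := ⟨0, by simp, by simp⟩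

lemma Sh.add {K : Finset G} {M N : ℕ} {x y : G} (hx : Sh K M x) (hy : Sh K N y) :
    Sh K (M + N) (x + y) := by
  obtain ⟨n, hn, rfl⟩ := hx
  obtain ⟨n', hn', rfl⟩ := hy
  refine ⟨n + n', ?_, ?_⟩
  · push_cast
    refine le_trans (Finset.sum_le_sum fun k _ => abs_add_le (n k) (n' k)) ?_
    rw [Finset.sum_add_distrib]
    exact add_le_add hn hn'
  · simp [add_smul, Finset.sum_add_distrib]

lemma Sh.neg {K : Finset G} {M : ℕ} {x : G} (hx : Sh K M x) : Sh K M (-x) := by
  obtain ⟨n, hn, rfl⟩ := hx
  exact ⟨-n, by simpa using hn, by simp⟩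

lemma Sh.mono {K K' : Finset G} {M M' : ℕ} {x : G} (hx : Sh K M x) (hK : K ⊆ K') (hM : M ≤ M') :
    Sh K' M' x := by
  obtain ⟨n, hn, rfl⟩ := hx
  refine ⟨fun k => if k ∈ K then n k else 0, ?_, ?_⟩
  · rw [← Finset.sum_subset hK (fun k _ hk => by simp [hk])]
    refine le_trans (le_of_eq (Finset.sum_congr rfl fun k hk => by simp [hk])) (hn.trans ?_)
    exact_mod_cast hM
  · rw [← Finset.sum_subset hK (fun k _ hk => by simp [hk])]
    exact Finset.sum_congr rfl fun k hk => by simp [hk]

lemma Sh.mem {K : Finset G} {k : G} (hk : k ∈ K) : Sh K 1 k := by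
  refine ⟨fun j => if j = k then 1 else 0, ?_, ?_⟩
  · rw [Finset.sum_eq_single k (fun j _ hj => by simp [hj]) (fun h => (h hk).elim)]
    simp
  · rw [Finset.sum_eq_single k (fun j _ hj => by simp [hj]) (fun h => (h hk).elim)]
    simp

lemma Sh.of_eq {K : Finset G} {M : ℕ} {x y : G} (hx : Sh K M x) (h : x = y) : Sh K M y := h ▸ hx

/-- no torsion of order up to `Q` -/
def NoTor (G : Type) [AddCommGroup G] (Q : ℝ) : Prop :=
  ∀ N : ℕ, 0 < N → (N : ℝ) ≤ Q → ∀ x : G, N • x = 0 → x = 0

/-- `θ` is a Freiman isomorphism on the short elements -/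
def Frei (K : Finset G) (M : ℕ) (θ : G → ℚ) : Prop :=
  ∀ a b c d : G, Sh K M a → Sh K M b → Sh K M c → Sh K M d →
    (a + b = c + d ↔ θ a + θ b = θ c + θ d)

attribute [local instance] Matrix.seminormedAddCommGroup

lemma small_multiple {κ : Type} [Fintype κ] (B : ℕ) (hB : 1 ≤ B) (R : Set (κ → ℤ))
    (hR : ∀ r ∈ R, ∑ k, |r k| ≤ B) (n : κ → ℤ) (hn : ∑ k, |n k| ≤ B)
    (hW : (fun k => (n k : ℚ)) ∈ Submodule.span ℚ ((fun (r : κ → ℤ) k => (r k : ℚ)) '' R)) :
    ∃ N : ℕ, 0 < N ∧ (N : ℝ) ≤ ((Fintype.card κ + 1) * (B : ℝ) ^ 2) ^ Fintype.card κ ∧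
      (N : ℤ) • n ∈ Submodule.span ℤ R := by
  classical
  have hB' : (1 : ℝ) ≤ B := by exact_mod_cast hB
  have hone : (1 : ℝ) ≤ (Fintype.card κ + 1) * (B : ℝ) ^ 2 :=
    one_le_mul_of_one_le_of_one_le (by simp) (one_le_pow₀ hB')
  obtain ⟨b, hb, hsp, hli⟩ := exists_linearIndependent ℚ ((fun (r : κ → ℤ) k => (r k : ℚ)) '' R)
  have hfin : b.Finite := hli.setFinite
  have := hfin.fintype
  have hcard : Fintype.card b ≤ Fintype.card κ := by
    have := hli.fintype_card_le_finrank
    simpa using this
  have hex : ∀ i : b, ∃ r ∈ R, (fun k => (r k : ℚ)) = (i : κ → ℚ) := fun i => hb i.2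
  choose r hrR hr using hex
  rw [← hsp] at hW
  rcases Nat.eq_zero_or_pos (Fintype.card b) with h0 | h0
  · have hb0 : b = ∅ := by
      rw [Fintype.card_eq_zero_iff] at h0
      exact Set.isEmpty_coe_sort.mp h0
    rw [hb0, Submodule.span_empty, Submodule.mem_bot] at hW
    have : n = 0 := by
      funext k
      have := congrFun hW k
      simpa using this
    exact ⟨1, one_pos, by simpa using one_le_pow₀ hone, by simp [this]⟩
  set r' : Option b → κ → ℤ := fun j => j.elim n r with hr'
  have hr's : ∀ j, ∑ k, |r' j k| ≤ B := by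
    intro j
    cases j with
    | none => exact hn
    | some i => exact hR _ (hrR i)
  set A : Matrix b (Option b) ℤ := fun i j => ∑ k, r i k * r' j k with hA
  have hAn : ‖A‖ ≤ (B : ℝ) ^ 2 := by
    rw [Matrix.norm_le_iff (by positivity)]
    intro i j
    have h1 : |A i j| ≤ (B : ℤ) ^ 2 := by
      calc |A i j| ≤ ∑ k, |r i k * r' j k| := Finset.abs_sum_le_sum_abs _ _
        _ ≤ ∑ k, |r i k| * B := by
            refine Finset.sum_le_sum fun k _ => ?_
            rw [abs_mul]
            refine mul_le_mul_of_nonneg_left ?_ (abs_nonneg _)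
            exact (Finset.single_le_sum (f := fun k => |r' j k|) (fun _ _ => abs_nonneg _)
              (mem_univ k)).trans (hr's j)
        _ ≤ (B : ℤ) ^ 2 := by
            rw [← Finset.sum_mul, sq]
            exact mul_le_mul_of_nonneg_right (hR _ (hrR i)) (by positivity)
    rw [Int.norm_eq_abs]
    exact_mod_cast h1
  obtain ⟨t, ht0, htA, htn⟩ := Int.Matrix.exists_ne_zero_int_vec_norm_le A (by simp) h0
  have hy : ∀ k, ∑ j, t j * r' j k = 0 := by
    set y : κ → ℚ := fun k => ((∑ j, t j * r' j k : ℤ) : ℚ) with hy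
    have hyW : y ∈ Submodule.span ℚ b := by
      have : y = ∑ j, (t j : ℚ) • (fun k => (r' j k : ℚ)) := by
        funext k
        simp [hy, Finset.sum_apply]
      rw [this]
      refine Submodule.sum_mem _ fun j _ => Submodule.smul_mem _ _ ?_
      cases j with
      | none => exact hW
      | some i =>
        have : (fun k => (r' (some i) k : ℚ)) = (i : κ → ℚ) := hr i
        rw [this]
        exact Submodule.subset_span i.2
    have horth : ∀ w ∈ Submodule.span ℚ b, w ⬝ᵥ y = 0 := by
      intro w hw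
      induction hw using Submodule.span_induction with
      | mem w hw =>
        have h1 := congrFun htA ⟨w, hw⟩
        have h2 : w = fun k => (r ⟨w, hw⟩ k : ℚ) := (hr ⟨w, hw⟩).symm
        rw [h2]
        simp only [mulVec, dotProduct, hA, Pi.zero_apply, Finset.sum_mul] at h1
        rw [Finset.sum_comm] at h1
        simp only [dotProduct, hy]
        have h3 : ((∑ k, ∑ j, r ⟨w, hw⟩ k * r' j k * t j : ℤ) : ℚ) = 0 := by
          rw [h1]
          simp
        rw [← h3]
        push_cast
        refine Finset.sum_congr rfl fun k _ => ?_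
        rw [Finset.mul_sum]
        exact Finset.sum_congr rfl fun j _ => by ring
      | zero => simp
      | add u v _ _ hu hv => rw [add_dotProduct, hu, hv, add_zero]
      | smul c u _ hu => rw [smul_dotProduct, hu, smul_zero]
    have h0' : y = 0 := dotProduct_self_eq_zero.mp (horth y hyW)
    intro k
    have := congrFun h0' k
    simp only [hy, Pi.zero_apply] at this
    exact_mod_cast this
  have htn0 : t none ≠ 0 := by
    intro h
    apply ht0
    have h1 := Fintype.linearIndependent_iff.mp hli (fun i => (t (some i) : ℚ)) (by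
      funext k
      have := hy k
      rw [Fintype.sum_option, h, zero_mul, zero_add] at this
      have h2 : ((∑ i, t (some i) * r' (some i) k : ℤ) : ℚ) = 0 := by rw [this]; simp
      rw [Pi.zero_apply, ← h2, Finset.sum_apply]
      push_cast
      refine Finset.sum_congr rfl fun i _ => ?_
      rw [Pi.smul_apply, smul_eq_mul, ← hr i]
      rfl)
    funext j
    cases j with
    | none => exact h
    | some i => exact_mod_cast h1 i
  refine ⟨(t none).natAbs, Int.natAbs_pos.mpr htn0, ?_, ?_⟩
  · have h1 : ‖t none‖ ≤ ‖t‖ := norm_le_pi_norm t none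
    rw [Int.norm_eq_abs] at h1
    rw [Nat.cast_natAbs]
    push_cast
    refine h1.trans (htn.trans ?_)
    have h2 : ((Fintype.card b : ℝ) / ((Fintype.card (Option b) : ℝ) - Fintype.card b))
        = (Fintype.card b : ℕ) := by simp
    rw [h2, Real.rpow_natCast]
    have h3 : (Fintype.card (Option b) : ℝ) * max 1 ‖A‖
        ≤ (Fintype.card κ + 1) * (B : ℝ) ^ 2 := by
      refine mul_le_mul ?_ (max_le (one_le_pow₀ hB') hAn) (by positivity) (by positivity)
      rw [Fintype.card_option]
      push_cast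
      have : (Fintype.card b : ℝ) ≤ Fintype.card κ := by exact_mod_cast hcard
      linarith
    exact (pow_le_pow_left₀ (by positivity) h3 _).trans (pow_le_pow_right₀ hone hcard)
  · have h1 : t none • n = -∑ i, t (some i) • r i := by
      funext k
      have := hy k
      rw [Fintype.sum_option] at this
      simp only [Pi.smul_apply, smul_eq_mul, Pi.neg_apply, Finset.sum_apply]
      exact eq_neg_of_add_eq_zero_left this
    have h2 : t none • n ∈ Submodule.span ℤ R := by
      rw [h1]
      exact Submodule.neg_mem _ (Submodule.sum_mem _ fun i _ =>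
        Submodule.smul_mem _ _ (Submodule.subset_span (hrR i)))
    rcases Int.natAbs_eq (t none) with h | h
    · rwa [← h]
    · have : ((t none).natAbs : ℤ) = -t none := by omega
      rw [this, neg_smul]
      exact Submodule.neg_mem _ h2

/-- Rectification. -/
lemma exists_frei (K : Finset G) (M : ℕ) (hM : 1 ≤ M) (Q : ℝ) (hG : NoTor G Q)
    (hQ : ((K.card + 1) * (4 * M : ℝ) ^ 2) ^ K.card ≤ Q) : ∃ θ, Frei K M θ := by
  classical
  let φ : (K → ℤ) →ₗ[ℤ] G := Fintype.linearCombination ℤ (fun k : K => (k : G))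
  have hφ : ∀ n, φ n = ∑ k : K, n k • (k : G) := fun n => Fintype.linearCombination_apply _ _ _
  let c : (K → ℤ) → K → ℚ := fun r k => (r k : ℚ)
  let R : Set (K → ℤ) := {r | ∑ k, |r k| ≤ ((4 * M : ℕ) : ℤ) ∧ φ r = 0}
  let W := Submodule.span ℚ (c '' R)
  have h1 : ∀ n : K → ℤ, ∑ k, |n k| ≤ ((4 * M : ℕ) : ℤ) → c n ∈ W → φ n = 0 := by
    intro n hn hW
    obtain ⟨N, hN0, hN, hNR⟩ := small_multiple (4 * M) (by omega) R (fun r hr => hr.1) n hn hW
    refine hG N hN0 (hN.trans ?_) _ ?_
    · simpa using hQ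
    · have : Submodule.span ℤ R ≤ LinearMap.ker φ := Submodule.span_le.mpr fun r hr => hr.2
      have h2 := this hNR
      rw [LinearMap.mem_ker, map_smul] at h2
      exact_mod_cast h2
  let S : Finset (K → ℤ) := (Fintype.piFinset fun _ => Icc (-(4 * M : ℤ)) (4 * M)).filter
    fun n => ∑ k, |n k| ≤ ((4 * M : ℕ) : ℤ) ∧ φ n ≠ 0
  obtain ⟨f, hf⟩ := Module.exists_dual_forall_apply_ne_zero (K := ℚ)
    (fun i : S => W.mkQ (c i)) (fun i h => by
      have hi := (mem_filter.mp i.2).2
      exact hi.2 (h1 i hi.1 (by simpa using h)))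
  have h2 : ∀ n : K → ℤ, ∑ k, |n k| ≤ ((4 * M : ℕ) : ℤ) → (φ n = 0 ↔ f (W.mkQ (c n)) = 0) := by
    intro n hn
    constructor
    · intro h
      have : c n ∈ W := Submodule.subset_span ⟨n, ⟨hn, h⟩, rfl⟩
      rw [Submodule.mkQ_apply, (Submodule.Quotient.mk_eq_zero W).mpr this, map_zero]
    · intro h
      by_contra h'
      refine hf ⟨n, mem_filter.mpr ⟨Fintype.mem_piFinset.mpr fun k => ?_, hn, h'⟩⟩ h
      rw [mem_Icc, ← abs_le]
      have := (Finset.single_le_sum (f := fun k => |n k|) (fun _ _ => abs_nonneg _)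
        (mem_univ k)).trans hn
      exact_mod_cast this
  have h3 : ∀ x : G, ∃ n : K → ℤ, Sh K M x → ∑ k, |n k| ≤ M ∧ φ n = x := by
    intro x
    by_cases h : Sh K M x
    · obtain ⟨n, hn, rfl⟩ := h
      refine ⟨fun k => n k, fun _ => ⟨?_, ?_⟩⟩
      · rwa [Finset.sum_coe_sort K (fun k => |n k|)]
      · rw [hφ, Finset.sum_coe_sort K (fun k => n k • k)]
    · exact ⟨0, fun h' => (h h').elim⟩
  choose n hn using h3
  refine ⟨fun x => f (W.mkQ (c (n x))), fun a b a' b' ha hb ha' hb' => ?_⟩
  have h4 := h2 (n a + n b - n a' - n b') (by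
    calc ∑ k, |(n a + n b - n a' - n b') k|
        ≤ ∑ k, (|n a k| + |n b k| + |n a' k| + |n b' k|) := by
          refine Finset.sum_le_sum fun k _ => ?_
          simp only [Pi.sub_apply, Pi.add_apply]
          have e1 := abs_sub (n a k + n b k - n a' k) (n b' k)
          have e2 := abs_sub (n a k + n b k) (n a' k)
          have e3 := abs_add_le (n a k) (n b k)
          linarith
      _ ≤ _ := by
          simp only [Finset.sum_add_distrib]
          push_cast
          linarith [(hn a ha).1, (hn b hb).1, (hn a' ha').1, (hn b' hb').1])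
  have h5 : c (n a + n b - n a' - n b') = c (n a) + c (n b) - c (n a') - c (n b') := by
    funext k
    simp [c]
  rw [h5] at h4
  simp only [map_sub, map_add, (hn a ha).2, (hn b hb).2, (hn a' ha').2, (hn b' hb').2] at h4
  constructor
  · intro h
    have := h4.mp (by rw [h]; abel)
    linarith
  · intro h
    have := h4.mpr (by linarith)
    rw [sub_sub, sub_eq_zero] at this
    exact this

end Pool.Agent.P.MP_5f6af4_co.Sp
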